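import Pool.Agent.Lib.MP_13404a_ag.Main

namespace Pool.Agent.Results.MP_13404a_ag.HalfPlusOne

open Pool.Agent.Lib.MP_13404a_ag

/-- For every `g ≥ 7` some non-isotrivial family of genus `g` curves has a constant part of
dimension at least `⌊g / 2⌋ + 1`. -/
theorem result (g : ℕ) (hg : 7 ≤ g) : ∃ X : Family,
    (∀ b, (X.C b).genus = g) ∧ X.Varies ∧ X.FixedPart (g / 2 + 1) := by
  have h := main ((g - 7) / 2) (ε := (g - 7) % 2) (by omega)
  rwa [show 2 * ((g - 7) / 2) + 7 + (g - 7) % 2 = g by omega,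
    show (g - 7) / 2 + 1 + (g - 7) % 2 + 3 = g / 2 + 1 by omega] at h

end Pool.Agent.Results.MP_13404a_ag.HalfPlusOne
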