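import Pool.Agent.Lib.MP_13404a_ag.AV.Sch
import Pool.Agent.Lib.MP_13404a_ag.PD.Main

namespace Pool.Agent.Results.MP_13404a_ag.ProjectiveImage

open Pool.Agent.Lib.MP_13404a_ag.UB Pool.Agent.Lib.MP_13404a_ag.AV
open CategoryTheory AlgebraicGeometry
open scoped IntermediateField

/-- `k` is the algebraic closure of the function field of the base and `K` is the function field of
the geometric generic fibre `C`, of genus `g`, which the linear system `Ψ` maps to projective space
as an immersed curve of degree at most `n`. If the family is not isotrivial and `A` is a complex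
abelian variety such that the constant abelian variety `A × Spec k` is generated by a rational map
from `C`, then `dim A ≤ g / 2 + 5 n / 2`. -/
theorem result {k K : Type} [Field k] [IsAlgClosed k] [Algebra ℂ k] [Field K] [Algebra k K]
    [Algebra ℂ K] [IsScalarTower ℂ k K] (hk : Algebra.trdeg ℂ k < Cardinal.aleph0)
    (hK : ∃ x : K, Transcendental k x ∧ FiniteDimensional k⟮x⟯ K) (hn : ¬ Isotrivial k K)
    {Ψ : Submodule k K} {n : ℕ} (hΨ : Immersion Ψ n)
    (A : Over (Spec (CommRingCat.of ℂ))) [GrpObj A] [IsProper A.hom]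
    [GeometricallyIntegral A.hom] (x : sp K ⟶ A) (hx : Generates k x) {q : ℕ}
    (hq : (q : WithBot ℕ∞) ≤ topologicalKrullDim A.left) :
    2 * q ≤ Module.finrank k (regAlong k k K) + 5 * n := by
  obtain ⟨ω, h1, h2, h3⟩ := exists_forms A x hx hq
  obtain ⟨δ, hδ⟩ := exists_der_stm hk
  exact main_pd δ hδ hK hn hΨ ω (fun i v u _ _ => h1 i v u) h2 h3

end Pool.Agent.Results.MP_13404a_ag.ProjectiveImage
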